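import Pool.Agent.K9h61.GG.Cor

/-!
# Growth gap for polycyclic (and other) groups of derived length three, given the houses

`G = ⟨S⟩` with `S` finite and symmetric, `H ≤ G` of index at most `d`, `H''` nilpotent or `H / H'''`
not virtually nilpotent.  The elements of `H` act by conjugation on `ℂ ⊗ H'/H''` and on
`ℂ ⊗ H''/H'''`.  If every eigenvalue of every element of `H` of length at most `4 (2 d - 1)` is a
root of unity or has a conjugate `w` with `|log |w|| ≥ β`, then `G` is virtually nilpotent or
`ρ_S ≥ κ(β) / (2 d - 1)` with `κ(β) = β log 2 / (176 (β + log 2))`.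

Idea of the proof.  Let `G = H`, `G''' = 1`; all subgroups of `G` may be assumed to be finitely
generated (starting result on derived length three).  If a short commutator `c` acts on `G''` with
an eigenvalue that is not a root of unity, then it has, after replacing this eigenvalue by a
conjugate, a common eigenfunctional `f` of `G'` on `G''` for which `c` is expanding or contracting;
`b(m) = f([c, m])` is a crossed homomorphism on `G'` with `b(c) = 0`, and a shortest word `g` (with
`K` letters) such that `b (g d g⁻¹) ≠ 0` for a short commutator `d` gives `K` lines on which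
conjugates of `c` and `d` act in a triangular way.  An entropy argument over the `K` lines, with a
second moment bound for the sizes of the noise, gives `exp (κ K R)` different elements of length
`22 K R`.  Otherwise `G'` is virtually nilpotent; let `N` be a normal subgroup of `G`, nilpotent and
of finite index in `G'`.  As `G / [N, N]` is not virtually nilpotent, a generator `s` has on
`N / [N, N]` an expanding eigenfunctional `φ`.  Then `ν(x) = sup_m |φ (m g [τ, x] g⁻¹ m⁻¹)|`, with `τ` a
power of `s` that acts trivially on `G' / N`, is a length function on `G'` that `s` multiplies by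
`|w|`; for some `g` it is not zero on all the short commutators, and this gives free semigroups.
-/

set_option autoImplicit false

namespace Pool.Agent.Results.MP_d69e80_al.HousesDerivedLengthThree

open Filter Topology Polynomial
open scoped Pointwise TensorProduct ComplexConjugate

/-- The exponential growth rate `ρ_S = lim (1/n) log |S ^ n|`, where `S ^ n` is the set of all
products of `n` elements of `S` (pointwise power of sets). -/
noncomputable def rho {G : Type*} [Group G] (S : Set G) : ℝ :=
  limUnder atTop (fun n : ℕ => Real.log (Nat.card ↥(S ^ n)) / n)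

/-- Conjugation by `t` on the abelianization `N^ab` (written additively) of a normal subgroup `N`,
as an endomorphism of the abelian group `N^ab`. -/
noncomputable def conjAb {G : Type*} [Group G] (N : Subgroup G) [N.Normal] (t : G) :
    Module.End ℤ (Additive (Abelianization N)) :=
  (MonoidHom.toAdditive
    (Abelianization.map (MulAut.conjNormal t : N ≃* N).toMonoidHom)).toIntLinearMap

/-- `z` is an eigenvalue of the conjugation by `t ∈ H` on `ℂ ⊗ H⁽ⁱ⁾/H⁽ⁱ⁺¹⁾`. -/
def EigenvalueOn {H : Type*} [Group H] (i : ℕ) (t : H) (z : ℂ) : Prop :=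
  Module.End.HasEigenvalue (LinearMap.baseChange ℂ (conjAb (derivedSeries H i) t) :
    Module.End ℂ (ℂ ⊗[ℤ] Additive (Abelianization (derivedSeries H i)))) z

/-- The situation: `S` is a finite symmetric generating set of `G`, the subgroup `H` has index at
most `d`, and `H''` is nilpotent or `H / H'''` is not virtually nilpotent. -/
def Setting (d : ℕ) {G : Type*} [Group G] (S : Set G) (H : Subgroup G) : Prop :=
  S.Finite ∧ S⁻¹ = S ∧ Subgroup.closure S = ⊤ ∧ H.index ≠ 0 ∧ H.index ≤ d ∧
    (Group.IsNilpotent (derivedSeries H 2) ∨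
      ¬ Group.IsVirtuallyNilpotent (H ⧸ derivedSeries H 3))

/-- `t ∈ H` is a product of at most `4 (2 d - 1)` elements of `S`. -/
def Short (d : ℕ) {G : Type*} [Group G] (S : Set G) {H : Subgroup G} (t : H) : Prop :=
  (t : G) ∈ (insert 1 S) ^ (4 * (2 * d - 1))

theorem result : ∃ c : ℝ, 0 < c ∧
    ∀ (d : ℕ) (G : Type) [Group G] (S : Set G) (H : Subgroup G), Setting d S H →
    Tendsto (fun n : ℕ => Real.log (Nat.card ↥(S ^ n)) / n) atTop (𝓝 (rho S)) ∧
    -- (A) eigenvalues with a conjugate far from the unit circle
    (∀ β : ℝ, 0 < β →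
      (∀ i : ℕ, i = 1 ∨ i = 2 → ∀ t : H, Short d S t → ∀ z : ℂ, EigenvalueOn i t z →
        (∃ n > 0, z ^ n = 1) ∨ ∃ w : ℂ, aeval w (minpoly ℚ z) = 0 ∧ β ≤ |Real.log ‖w‖|) →
      Group.IsVirtuallyNilpotent G ∨
        β * Real.log 2 / (176 * (β + Real.log 2) * (2 * d - 1)) ≤ rho S) ∧
    -- (B) eigenvalues of degree at most `n`
    (∀ n : ℕ,
      (∀ i : ℕ, i = 1 ∨ i = 2 → ∀ t : H, Short d S t → ∀ z : ℂ, EigenvalueOn i t z →
        (minpoly ℚ z).natDegree ≤ n) →
      Group.IsVirtuallyNilpotent G ∨ c / (n * Real.log (2 * n) ^ 3 * (2 * d - 1)) ≤ rho S) := by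
  obtain ⟨c, hc, hdeg⟩ := K9h61.GG.gap_deg
  refine ⟨c, hc, ?_⟩
  intro d G _ S H hset
  obtain ⟨hfin, hsym, hgen, hH, hd, hnil⟩ := hset
  refine ⟨H746UG.tendsto_rho S, fun β hβ h => ?_, fun n hn => ?_⟩
  · have h1 := K9h61.GG.final G S hfin hsym hgen H d hH hd hnil hβ
      (fun i hi _ t ht z hz => h i hi t ht z hz)
    have h2 : Real.log 2 / (88 * K9h61.GG.QQ β * (2 * d - 1)) =
        β * Real.log 2 / (176 * (β + Real.log 2) * (2 * d - 1)) := by
      have hlog2 : (0 : ℝ) < Real.log 2 := Real.log_pos (by norm_num)
      have hd1 : (1 : ℝ) ≤ d := by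
        have : 1 ≤ d := by omega
        exact_mod_cast this
      have hpos : (0 : ℝ) < 2 * d - 1 := by linarith
      unfold K9h61.GG.QQ
      field_simp
      ring
    rw [h2] at h1
    exact h1
  · exact hdeg G S hfin hsym hgen H d hH hd hnil n hn

end Pool.Agent.Results.MP_d69e80_al.HousesDerivedLengthThree
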