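import Pool.Agent.K9h38.GG.Main

/-!
# MP_d69e80_al: a growth gap for the metabelian-by-(nilpotent of class `k`) groups that are not
polycyclic

Let `S` be a finite symmetric generating set of an arbitrary group `G`, let `H` be a subgroup of
index at most `d`, and let `Γ = γ_{k+1}(H)` be a term of the lower central series of `H`, `k ≥ 1`.
We prove that either `ρ_S ≥ (log 2) / (216 · 2 ^ k (2 d - 1))` or all subgroups of `H / Γ''` are
finitely generated; and in the latter case all subgroups of `G` are finitely generated if `Γ'` is
nilpotent.  (A solvable group all of whose subgroups are finitely generated is polycyclic.)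

The starting result `DerivedLengthThree` is the case `k = 1` (with a better constant).  Its proof
does not extend to `k ≥ 2`: there `M = G'` acts on an affine line over a valued field, a shortest
word `g` is taken such that a conjugate `g d g⁻¹` of a short commutator `d` moves the fixed point
of the short hyperbolic element `c`, and the `K` prefixes of the word and of its cyclic rotations
give a triangular system of `K` lines and `K` movers; the rotations of the word differ from the
word by elements of `G'`, and it is essential that `G'` is the group that acts on the line.

Idea of the proof for `M = γ_{k+1}(G)`.  The group `M` acts on an affine line over a valued field,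
and some left-normed commutator `c` of weight `k + 1` of generators acts as a hyperbolic element
with fixed point `0`, while the conjugates of these commutators do not all fix `0`.  Paths are now
taken on `k` levels: a shortest word in the generators, modulo the subgroup generated by the
commutators of weights `2, …, k`; for each of its rotations a shortest word in the commutators of
weight `2`, modulo those of weights `3, …, k`; and so on.  The number of steps on a level depends
on the position on the previous levels, and can be zero.  Commuting letters past each other only
produces conjugates of short elements of `M` at positions where they fix `0`, by minimality, and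
letters of deeper levels.  So the final positions, in lexicographical order, form a triangular
system of `n` lines and `n` movers, `n ≥ 1`, and both families of positions can be visited by tours
of length `O(2 ^ k n)` in the Cayley graph.  By telescoping, the products of subsets of the `n`
conjugates have length `O(2 ^ k n)`, and the entropy argument of the starting result gives
`2 ^ (n R / 4)` different elements of length `54 · 2 ^ k n R`.
-/

namespace Pool.Agent.Results.MP_d69e80_al.MetabelianByNilpotent

open Filter Topology
open scoped Pointwise commutatorElement

universe u

/-- The exponential growth rate `ρ_S = lim (1/n) log |S ^ n|`, where `S ^ n` is the set of all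
products of `n` elements of `S` (pointwise power of sets). -/
noncomputable def rho {G : Type*} [Group G] (S : Set G) : ℝ :=
  limUnder atTop (fun n : ℕ => Real.log (Nat.card ↥(S ^ n)) / n)

/-- The term `γ_{k+1}(G)` of the lower central series (so `k = 1` gives `G'`). -/
abbrev gamma (G : Type*) [Group G] (k : ℕ) : Subgroup G := (⊤ : Subgroup G).lowerCentralSeries k

/-- Let `S` be a finite symmetric generating set of a group `G`, `k ≥ 1`, and `H` a subgroup of
index at most `d`; let `Γ = γ_{k+1}(H)`, `Γ' = ⁅Γ, Γ⁆` and `Γ'' = ⁅Γ', Γ'⁆`.  The limit `ρ_S`
exists.  Either `ρ_S ≥ (log 2) / (216 · 2 ^ k (2 d - 1))`, or all subgroups of `H / Γ''` are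
finitely generated, and moreover all subgroups of `G` are finitely generated if `Γ'` is
nilpotent. -/
theorem result {G : Type u} [Group G] (S : Set G) (hfin : S.Finite) (hsym : S⁻¹ = S)
    (hgen : Subgroup.closure S = ⊤) :
    Tendsto (fun n : ℕ => Real.log (Nat.card ↥(S ^ n)) / n) atTop (𝓝 (rho S)) ∧
    ∀ (k : ℕ), 1 ≤ k → ∀ (H : Subgroup G) (d : ℕ), H.index ≠ 0 → H.index ≤ d →
      Real.log 2 / (216 * 2 ^ k * (2 * d - 1)) ≤ rho S ∨
        ((∀ K : Subgroup (H ⧸ ⁅⁅gamma H k, gamma H k⁆, ⁅gamma H k, gamma H k⁆⁆), K.FG) ∧
          (Group.IsNilpotent ↥⁅gamma H k, gamma H k⁆ → ∀ K : Subgroup G, K.FG)) := by
  refine ⟨Pool.Agent.H746UG.tendsto_rho S, ?_⟩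
  intro k hk H d hH hd
  exact Pool.Agent.K9h38.GG.final S hfin hsym hgen k hk H d hH hd (gamma H k) rfl

end Pool.Agent.Results.MP_d69e80_al.MetabelianByNilpotent
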