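import Mathlib
import Pool.Agent.K9h73.MN.Final

/-!
# Almost exponential growth of balls, uniform in the rank, for metabelian-by-nilpotent groups

Let `S` be a finite symmetric generating set of a group `G`, let `H` be a subgroup of index at most
`d` (for instance `H = G`, `d = 1`), `k ≥ 1` and `M = γ_{k+1}(H)`, so that `H / M` is nilpotent of
class at most `k`.  Suppose that `M / M''` is not virtually nilpotent, or that `M'` is nilpotent (for
instance abelian) and `M` is not virtually nilpotent.  Then for all `n ≥ 1` the ball of radius `n`
has at least `exp (c n / (2^k d (log 2n) ^ 3))` elements, with an absolute constant `c > 0`: the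
bound depends neither on `S` nor on the ranks of the abelian sections, and no conjecture is used.
For `k = 1` this is about groups of derived length three.

Idea of the proof.  As in the proof of the bound of `ρ_S` by Mahler measures, the products of `R`
conjugates of one element by products of `K` elements, chosen by `K R` bits, have length at most
`54 · 2^k · K R`, and on the `i`-th line they are random sums `∑ x_r γ^r σ_r`, where `γ` is an
algebraic unit and the `σ_r` are independent random factors, functions of bits used on the earlier
lines.  By submodularity of the entropy of subset sums the factors `σ_r` cost at most half of the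
entropy of `∑_{r < R} x_r γ^r`.  If the degree of `γ` is at least `R` then all these sums are
different; if it is smaller then the theorem of Dobrowolski bounds the Mahler measure of `γ`, and so
the entropy, from below in terms of `R` only.
-/

set_option autoImplicit false

namespace Pool.Agent.Results.MP_d69e80_al.MetabelianByNilpotentBalls

open scoped Pointwise commutatorElement

universe u

/-- The term `γ_{k+1}(H)` of the lower central series of the group `H`
(`γ_1(H) = H`, `γ_{k+1}(H) = [γ_k(H), H]`). -/
def gam (H : Type*) [Group H] (k : ℕ) : Subgroup H := (⊤ : Subgroup H).lowerCentralSeries k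

/-- `M / M''` is not virtually nilpotent, or `M'` is nilpotent and `M` is not virtually nilpotent. -/
def Large (M : Type*) [Group M] : Prop :=
  ¬ Group.IsVirtuallyNilpotent (M ⧸ derivedSeries M 2) ∨
    (Group.IsNilpotent (commutator M) ∧ ¬ Group.IsVirtuallyNilpotent M)

/-- `S` is a finite symmetric generating set of `G`, `k ≥ 1`, the index of the subgroup `H` is
finite and at most `d`, and `M = γ_{k+1}(H)` satisfies `Large M`. -/
def Setting (k d : ℕ) {G : Type*} [Group G] (S : Set G) (H : Subgroup G) : Prop :=
  S.Finite ∧ S⁻¹ = S ∧ Subgroup.closure S = ⊤ ∧ 0 < k ∧ H.index ≠ 0 ∧ H.index ≤ d ∧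
    Large (gam H k)

/-- There is an absolute constant `c > 0` such that in the above setting the ball `({1} ∪ S)^n` of
radius `n` has at least `exp (c n / (2^k d (log 2n) ^ 3))` elements for all `n ≥ 1`. -/
theorem result : ∃ c : ℝ, 0 < c ∧
    ∀ (G : Type u) [Group G] (S : Set G) (H : Subgroup G) (k d : ℕ), Setting k d S H →
      ∀ n : ℕ, 1 ≤ n → Real.exp (c * n / (2 ^ k * d * (Real.log (2 * n)) ^ 3)) ≤
        (Nat.card ↥((insert 1 S) ^ n) : ℝ) := by
  obtain ⟨c, hc, hunc⟩ := Pool.Agent.K9h73.MN.G_unc.{u}
  refine ⟨c, hc, ?_⟩
  intro G _ S H k d hset
  obtain ⟨hfin, hsym, hgen, hk, hH, hd, hlarge⟩ := hset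
  have hE : ¬ Pool.Agent.K9h73.MN.Exc ↥((⊤ : Subgroup H).lowerCentralSeries k) := by
    rintro ⟨h1, h2⟩
    rcases hlarge with h | ⟨h3, h4⟩
    · exact h h1
    · exact h4 (h2 h3)
  exact (hunc G S hfin hsym hgen H d k hk hH hd).resolve_left hE

end Pool.Agent.Results.MP_d69e80_al.MetabelianByNilpotentBalls
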