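import Mathlib
import Pool.Agent.K9h73.MN.Final

/-!
# Uniform growth of metabelian-by-nilpotent groups up to Lehmer's conjecture

Let `S` be a finite symmetric generating set of a group `G`, `H` a subgroup of index at most `d`
(for instance `H = G`, `d = 1`), `k ≥ 1` and `M = γ_{k+1}(H)`, so that `H / M` is nilpotent of class
at most `k`.  Suppose that `M / M''` is not virtually nilpotent, or that `M'` is nilpotent (for
instance abelian) and `M` is not virtually nilpotent.  Then `ρ_S ≥ 1 / (3456 · 2^k · d)`, or
`ρ_S ≥ min (1, log M(z)) / (3456 · 2^k · d)` for an eigenvalue `z` of an element of `M` acting on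
`ℂ ⊗ (M')^ab`, where `z` is an algebraic unit and not a root of unity.  So Lehmer's conjecture
implies a gap for these groups which depends on the class `k` and on the index `d` only.

For `k = 1` the group `M = H'` is the derived subgroup, and the theorem is about groups of derived
length three.

Idea of the proof.  We may assume that `H = G` and `M'' = 1`, and by `K9h38.GG` (the absolute gap
for the groups which are not polycyclic) that `G` is polycyclic.  Then `M` acts by affine maps
`y ↦ χ(m) y + b(m)` on a number field, where `χ` takes values of infinite order.  The recursion of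
`K9h38.GG` through the lower central series gives lines and commuting scales: the products of `R`
conjugates of one element `U` by products of `K` elements, chosen by `K R` bits, have length at most
`54 · 2^k · K R`, and on the `i`-th line they are, up to terms which depend on the bits of the
earlier lines only, random sums `∑ x_r γ^r σ_r`, where `γ = χ_i(U)` and the `σ_r` are independent
random factors, functions of the bits of the earlier lines.  There is no valuation which separates
the terms.  The new point is that the multiplicative noise `σ_r` costs on the average at most half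
of the entropy: the entropy of `∑_{i ∈ A} x_i a_i` with independent uniform bits is a monotone and
submodular function of the set `A` of indices (`K9h73.DL.ff_mono`, `K9h73.DL.ff_sub`), and for each
such function on `{1, …, R} × B` the mean over all graphs of maps `{1, …, R} → B` is at least half
of the mean over the graphs of the constant maps (`K9h73.DL.noise_abs`).  The entropy of
`∑ x_r γ^r` is at least `R log (base (M(γ)))` by the bound for the number of the collisions which is
in the library.
-/

set_option autoImplicit false

namespace Pool.Agent.Results.MP_d69e80_al.MetabelianByNilpotentLehmer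

open Filter Topology
open scoped Pointwise commutatorElement TensorProduct

universe u

/-- Conjugation by `t` on the abelianization `N^ab` (written additively) of a normal subgroup `N`,
as an endomorphism of the abelian group `N^ab`. -/
noncomputable def conjAb {G : Type*} [Group G] (N : Subgroup G) [N.Normal] (t : G) :
    Module.End ℤ (Additive (Abelianization N)) :=
  (MonoidHom.toAdditive
    (Abelianization.map (MulAut.conjNormal t : N ≃* N).toMonoidHom)).toIntLinearMap

/-- The Mahler measure of (the minimal polynomial over `ℤ` of) an algebraic integer `z`. -/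
noncomputable def mahler (z : ℂ) : ℝ := ((minpoly ℤ z).map (Int.castRingHom ℂ)).mahlerMeasure

/-- `z` is a unit of the ring of algebraic integers and not a root of unity. -/
def UnitNotRoot (z : ℂ) : Prop := IsIntegral ℤ z ∧ IsIntegral ℤ z⁻¹ ∧ z ≠ 0 ∧ ∀ m > 0, z ^ m ≠ 1

/-- `z` is an eigenvalue of an element `t` of the group `M`, acting by conjugation on
`ℂ ⊗ (M')^ab`, where `M'` is the derived subgroup. -/
def Eigenvalue (M : Type*) [Group M] (z : ℂ) : Prop :=
  ∃ t : M, Module.End.HasEigenvalue
    (LinearMap.baseChange ℂ (conjAb (commutator M) t) :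
      Module.End ℂ (ℂ ⊗[ℤ] Additive (Abelianization (commutator M)))) z

/-- The term `γ_{k+1}(H)` of the lower central series of the group `H`
(`γ_1(H) = H`, `γ_{k+1}(H) = [γ_k(H), H]`). -/
def gam (H : Type*) [Group H] (k : ℕ) : Subgroup H := (⊤ : Subgroup H).lowerCentralSeries k

/-- `M / M''` is not virtually nilpotent, or `M'` is nilpotent and `M` is not virtually nilpotent. -/
def Large (M : Type*) [Group M] : Prop :=
  ¬ Group.IsVirtuallyNilpotent (M ⧸ derivedSeries M 2) ∨
    (Group.IsNilpotent (commutator M) ∧ ¬ Group.IsVirtuallyNilpotent M)

/-- `S` is a finite symmetric generating set of `G`, `k ≥ 1`, the index of the subgroup `H` is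
finite and at most `d`, and `M = γ_{k+1}(H)` satisfies `Large M`. -/
def Setting (k d : ℕ) {G : Type*} [Group G] (S : Set G) (H : Subgroup G) : Prop :=
  S.Finite ∧ S⁻¹ = S ∧ Subgroup.closure S = ⊤ ∧ 0 < k ∧ H.index ≠ 0 ∧ H.index ≤ d ∧
    Large (gam H k)

/-- In the above setting, with `M = γ_{k+1}(H)`, the limit `ρ = ρ_S` exists, and
`ρ ≥ 1 / (3456 · 2^k · d)`, or `ρ ≥ min (1, log M(z)) / (3456 · 2^k · d)` for an algebraic unit `z`,
not a root of unity, which is an eigenvalue of an element of `M` on `ℂ ⊗ (M')^ab`. -/
theorem result (G : Type u) [Group G] (S : Set G) (H : Subgroup G) (k d : ℕ)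
    (hset : Setting k d S H) :
    ∃ ρ : ℝ, Tendsto (fun n : ℕ => Real.log (Nat.card ↥(S ^ n)) / n) atTop (𝓝 ρ) ∧
      (1 / (3456 * 2 ^ k * d) ≤ ρ ∨ ∃ z : ℂ, UnitNotRoot z ∧ Eigenvalue (gam H k) z ∧
        min 1 (Real.log (mahler z)) / (3456 * 2 ^ k * d) ≤ ρ) := by
  obtain ⟨hfin, hsym, hgen, hk, hH, hd, hlarge⟩ := hset
  have hE : ¬ Pool.Agent.K9h73.MN.Exc ↥((⊤ : Subgroup H).lowerCentralSeries k) := by
    rintro ⟨h1, h2⟩
    rcases hlarge with h | ⟨h3, h4⟩
    · exact h h1
    · exact h4 (h2 h3)
  refine ⟨Pool.Agent.H746UG.rho S, Pool.Agent.H746UG.tendsto_rho S, ?_⟩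
  rcases (Pool.Agent.K9h73.MN.G_main S hfin hsym hgen H d k hk hH hd).resolve_left hE with
    h | ⟨z, hz, hev, -, hρ⟩
  · exact Or.inl h
  · exact Or.inr ⟨z, hz, hev, hρ⟩

end Pool.Agent.Results.MP_d69e80_al.MetabelianByNilpotentLehmer
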